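import Pool.Agent.D0H66.CK.GeoK2

/-!
# LFT (module for helper75): factorisation through a divisor with nilpotent kernel

A named form of the lemmas of `Pool.Agent.D0H66.CK.GeoK2` (helper66).
-/

set_option autoImplicit false

open CategoryTheory AlgebraicGeometry

universe v

namespace Pool.Agent.D0H78.LF

open Finset Pool.Agent.H914 Pool.Agent.H914.VarClass Pool.Agent.H914.VarClass.Obj
  Pool.Agent.W492.BB Pool.Agent.W550.Corr Pool.Agent.TH133 Pool.Agent.D0H66.CKS
  Pool.Agent.D0H66.CK

variable {𝒱 : VarClass ℂ} {C : TheoryData.{0, v, 0} 𝒱 ℚ} [hC : IsChowProj C]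
  {H : WeilTheoryData.{0, v, 0} C ℚ} [hH : IsWeilProj H] {X Y : 𝒱.Obj}

theorem LFT (ι : Y ⟶ X) (hdim : Y.dim + 1 = X.dim) (hL : LefschetzInverse H X (C.push ι 1))
    (hY : NilpotentKernel H Y) : ∀ i : ℕ, i ≤ 2 * X.dim → i ≠ X.dim → TameFactor H X i := by
  intro i hi hid
  have hpow := pow_class_mem (C := C) ι hdim
  have hK := kunneth_of_lefschetz hpow hL i hid
  rcases lt_or_gt_of_ne hid with hlt | hgt
  · exact (through_divisor ι hdim hL hlt).1.tameFactor hK hY
  · exact (through_divisor_up ι hdim hL hgt hi).tameFactor hK hY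

end Pool.Agent.D0H78.LF
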